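import Pool.Agent.Helper74.LE.GoalsH

/-!
# Packet LE-ULOW (MP_cc6379_al): a general form of the first relation, all weight functions
(adapted from the LL packet ULOW, `Helper95/LL/ULOW.lean`)
-/

set_option autoImplicit false

open LaurentPolynomial Pool.Agent.Helper15.RA Pool.Agent.Helper45.AM

noncomputable section

namespace Pool.Agent.Helper23.LE

open Pool.Agent.Helper74.LL (KD1 K1 w0 Lg)
open Pool.Agent.Helper74.LE

theorem t (hKD1 : KD1) (hK1 : K1) (hHWT : Pool.Agent.Helper74.LE.HWT)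
    (hHRL : Pool.Agent.Helper74.LE.HRL) : Pool.Agent.Helper74.LE.ULOW := by
  intro S W H _ _ _ X M n K a b c x x₅ y hId hN0 hN1 hab hac hbc hm hx hy hx5 hxa hlen hGe hK hK' hyp
  obtain ⟨-, hpos, -, hW⟩ := hHWT S W H X
  have hLg : Lg X.M := ⟨X.fin, X.mat, X.big⟩
  have hfin := X.fin
  obtain ⟨⟨-, -, -, hw0len, -⟩, hz1, -⟩ := hKD1 S W X.M X.cs a c hac (hfin a c)
  have hlenab : X.cs.length (X.cs.simple a * X.cs.simple b) = 2 :=
    (hKD1 S W X.M X.cs a b hab (hfin a b)).2.2.2.2.2.2.2.2.1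
  have hSZ := (hK1 S W X.M X.cs hLg).2.2.2.2.2.2.1
  have hm7 : 7 ≤ X.M a c := X.big a c hac hm
  obtain ⟨-, -, -, -, hWc, -, hWz⟩ := hW a c hac
  -- lengths
  have hxa1 : X.cs.length (x * X.cs.simple a) = X.cs.length x + 1 := hx a (by simp)
  have hby : X.cs.length (X.cs.simple b * y) = X.cs.length y + 1 := hy b (by simp)
  have hbL : ¬ X.cs.IsLeftDescent y b := by
    rw [X.cs.not_isLeftDescent_iff]
    exact hby
  have hlen5 : ∀ z ∈ par X.cs {a, c}, X.cs.length (x₅ * z) = X.cs.length x₅ + X.cs.length z :=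
    fun z hz => (Pool.Agent.Helper15.AM.k_gpa S W X.M X.cs {a, c}).2.2 x₅ hx5 z hz
  have hw0mem : w0 X.cs a c ∈ par X.cs {a, c} := (hKD1 S W X.M X.cs a c hac (hfin a c)).1.1
  have hlx : X.cs.length x + 1 = X.cs.length x₅ + X.M a c := by
    rw [← hxa1, hxa, hlen5 _ hw0mem, hw0len]
  -- products
  have hTb : X.D.t (X.cs.simple b) * X.D.t y = X.D.t (X.cs.simple b * y) := by
    apply X.D.mul
    rw [hby, X.cs.length_simple, add_comm]
  have hT : X.D.t x * X.D.t (X.cs.simple a * X.cs.simple b) * X.D.t y =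
      X.D.t (x₅ * w0 X.cs a c) * X.D.t (X.cs.simple b * y) := by
    rw [← X.D.mul (X.cs.simple a) (X.cs.simple b) (by
      rw [hlenab, X.cs.length_simple, X.cs.length_simple]), ← hxa,
      ← X.D.mul x (X.cs.simple a) (by rw [hxa1, X.cs.length_simple]), ← hTb]
    noncomm_ring
  have hla : X.l a = X.L (X.cs.simple a) := rfl
  have hlb : X.l b = X.L (X.cs.simple b) := rfl
  have hlc : X.l c = X.L (X.cs.simple c) := rfl
  rw [hT]
  refine (hHRL S W H X M K a c (X.D.t (X.cs.simple b * y)) hac hId hGe).1 x₅ hx5 ?_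
  intro z hz hzw
  by_cases hzc : z = w0 X.cs a c * X.cs.simple c
  · rw [hzc]
    refine hyp.mono ?_
    have h2 : (X.L (w0 X.cs a c) : ℤ) =
        X.L (w0 X.cs a c * X.cs.simple c) + X.L (X.cs.simple c) := by exact_mod_cast hWc
    rw [hlc]
    linarith
  · obtain ⟨-, hza, -, -, hz3⟩ := hWz z hz hzw
    have hza := hza hzc
    have hzlt : X.cs.length z < X.M a c := (hz1 z hz).2.1 hzw
    by_cases hbR : X.cs.IsRightDescent (x₅ * z) b
    · have hzl := hSZ a b c x₅ z hac (Ne.symm hab) hbc hx5 hz hbR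
      refine (hN0 (x₅ * z) (X.cs.simple b * y) ?_).mono ?_
      · rw [hlen5 z hz, hby]
        omega
      · have h5 := hz3 hm (by omega)
        rw [hla, hlc] at hK'
        zify at h5
        linarith
    · rw [← hTb, ← mul_assoc]
      refine (hN1 (x₅ * z) y b hbR hbL ?_).mono ?_
      · rw [hlen5 z hz]
        omega
      · rw [hla, hlb] at hK
        zify at hza
        linarith

end Pool.Agent.Helper23.LE
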